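import Pool.Agent.H84.ND.Targets1
import Pool.Agent.H42.SM.GPR

/-!
# GPN: the form of an irreducible curve is prime in the rings of the charts, and does not divide
its derivatives
-/

set_option autoImplicit false

namespace Pool.Agent.H39.ND

open MvPolynomial Pool.Agent.H84.SM Pool.Agent.H84.ND

variable {k : Type} [Field k]

/-- if the derivative vanishes then the variable does not occur -/
lemma supp_zero [CharZero k] {G : MvPolynomial (Fin 3) k} {l : Fin 3} (h : pderiv l G = 0) :
    ∀ m ∈ G.support, m l = 0 := by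
  classical
  intro m hm
  by_contra h0
  have h1 : Finsupp.single l 1 ≤ m := by
    rw [Finsupp.single_le_iff]
    omega
  have h2 := congrArg (coeff (m - Finsupp.single l 1)) h
  rw [coeff_pderiv, tsub_add_cancel_of_le h1, coeff_zero] at h2
  rw [mem_support_iff] at hm
  rcases mul_eq_zero.1 h2 with h3 | h3
  · exact hm h3
  · exact Nat.cast_add_one_ne_zero _ h3

/-- evaluation does not depend on the variable which does not occur -/
lemma aeval_indep {R : Type} [CommRing R] [Algebra k R] {G : MvPolynomial (Fin 3) k} {l : Fin 3}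
    (h : ∀ m ∈ G.support, m l = 0) {f g : Fin 3 → R} (hfg : ∀ i, i ≠ l → f i = g i) :
    aeval f G = aeval g G := by
  rw [aeval_def, aeval_def, eval₂_eq, eval₂_eq]
  refine Finset.sum_congr rfl fun m hm => ?_
  congr 1
  refine Finset.prod_congr rfl fun i _ => ?_
  by_cases hi : i = l
  · rw [hi, h m hm, pow_zero, pow_zero]
  · rw [hfg i hi]

/-- a form at a multiple of a point -/
lemma aeval_hom {R : Type} [CommRing R] [Algebra k R] {G : MvPolynomial (Fin 3) k} {d : ℕ}
    (h : G.IsHomogeneous d) (r : Fin 3 → k) (x : R) :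
    aeval (fun i => algebraMap k R (r i) * x) G = algebraMap k R (eval r G) * x ^ d := by
  rw [aeval_def, eval₂_eq, eval_eq, map_sum, Finset.sum_mul]
  refine Finset.sum_congr rfl fun m hm => ?_
  have h1 : ∑ i ∈ m.support, m i = d := by
    have h2 := h (mem_support_iff.1 hm)
    rw [← h2, Finsupp.weight_apply, Finsupp.sum]
    simp
  rw [map_mul, map_prod, mul_assoc]
  congr 1
  rw [← h1, ← Finset.prod_pow_eq_pow_sum, ← Finset.prod_mul_distrib]
  refine Finset.prod_congr rfl fun i _ => ?_
  rw [mul_pow, map_pow]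

/-- the point with the coordinates `s`, `t`, `0` -/
noncomputable def pt {R : Type} [CommRing R] (u v : Fin 3) (s t : R) : Fin 3 → R :=
  Pi.single u s + Pi.single v t

lemma eval_poly (G : MvPolynomial (Fin 3) k) (q : Fin 3 → Polynomial k) (t : k) :
    Polynomial.eval t (aeval q G) = eval (fun i => Polynomial.eval t (q i)) G := by
  have h1 : (Polynomial.aeval t).comp (aeval q : MvPolynomial (Fin 3) k →ₐ[k] Polynomial k) =
      aeval (fun i => Polynomial.eval t (q i)) := by
    rw [comp_aeval]
    rfl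
  have h2 := congrArg (fun φ : MvPolynomial (Fin 3) k →ₐ[k] k => φ G) h1
  exact h2

lemma eval_pt1 (G : MvPolynomial (Fin 3) k) (u v : Fin 3) (t : k) :
    Polynomial.eval t (aeval (pt u v Polynomial.X 1) G) = eval (pt u v t 1) G := by
  rw [eval_poly]
  congr 1
  congr 1
  funext i
  unfold pt
  rw [Pi.add_apply, Pi.add_apply, Polynomial.eval_add]
  have h1 : Polynomial.eval t (Pi.single (M := fun _ => Polynomial k) u Polynomial.X i) =
      Pi.single (M := fun _ => k) u t i := by
    rw [Pi.single_apply, Pi.single_apply]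
    split_ifs
    · exact Polynomial.eval_X
    · exact Polynomial.eval_zero
  have h2 : Polynomial.eval t (Pi.single (M := fun _ => Polynomial k) v 1 i) =
      Pi.single (M := fun _ => k) v 1 i := by
    rw [Pi.single_apply, Pi.single_apply]
    split_ifs
    · exact Polynomial.eval_one
    · exact Polynomial.eval_zero
  rw [h1, h2]

/-- a form in two variables has a zero -/
lemma exists_zero [IsAlgClosed k] [CharZero k] {G : MvPolynomial (Fin 3) k} {d : ℕ} (hd : 2 ≤ d)
    (h : G.IsHomogeneous d) {i j : Fin 3} (hij : i ≠ j) :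
    (∃ t : k, eval (pt i j t 1) G = 0) ∨ ∃ t : k, eval (pt j i t 1) G = 0 := by
  by_contra hc
  push Not at hc
  obtain ⟨hc1, hc2⟩ := hc
  have hno : ∀ u v : Fin 3, (∀ t : k, eval (pt u v t 1) G ≠ 0) →
      ∀ t : k, eval (pt u v t 1) G = eval (pt u v 0 1) G := by
    intro u v h1 t
    have h2 : (aeval (pt u v Polynomial.X 1) G : Polynomial k).degree = 0 := by
      by_contra h3
      obtain ⟨x, hx⟩ := IsAlgClosed.exists_root _ h3
      rw [Polynomial.IsRoot.def, eval_pt1] at hx
      exact h1 x hx
    have h3 := Polynomial.eq_C_of_degree_eq_zero h2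
    rw [← eval_pt1, ← eval_pt1, h3, Polynomial.eval_C, Polynomial.eval_C]
  have e1 := hno i j hc1
  have e2 := hno j i hc2
  have hs : pt i j (1 : k) 1 = pt j i (1 : k) 1 := by
    unfold pt
    rw [add_comm]
  -- the point (2, 1) = 2 (1, 1 / 2)
  have h4 : eval (pt i j (2 : k) 1) G = eval (pt j i (1 / 2 : k) 1) G * 2 ^ d := by
    have h5 := aeval_hom (R := k) h (pt j i (1 / 2 : k) 1) 2
    have h6 : (fun m => algebraMap k k (pt j i (1 / 2 : k) 1 m) * 2) = pt i j (2 : k) 1 := by
      funext m
      unfold pt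
      rw [Pi.add_apply, Pi.add_apply]
      by_cases hu : m = i
      · subst hu
        simp [hij]
      · by_cases hv : m = j
        · subst hv
          simp [hij.symm]
        · simp [hu, hv]
    rw [h6] at h5
    exact h5
  have h5 : eval (pt i j (1 : k) 1) G = eval (pt j i (1 : k) 1) G := by rw [hs]
  rw [e1 2, e2 (1 / 2)] at h4
  rw [e1 1, e2 1] at h5
  rw [h5] at h4
  have h6 : eval (pt j i (0 : k) 1) G * (2 ^ d - 1) = 0 := by
    linear_combination -h4
  rcases mul_eq_zero.1 h6 with h7 | h7
  · exact hc2 0 h7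
  · have h8 : (2 : k) ^ d = 1 := by linear_combination h7
    have h9 : (2 : ℕ) ^ d = 1 := by exact_mod_cast h8
    have h10 : 1 < 2 ^ d := Nat.one_lt_two_pow (by omega)
    omega

/-- a form without the variable `l` which vanishes at a point has a linear factor -/
lemma lin_dvd {G : MvPolynomial (Fin 3) k} {d : ℕ} (h : G.IsHomogeneous d) {u v l : Fin 3}
    (huv : u ≠ v) (hall : ∀ m, m = u ∨ m = v ∨ m = l) (hs : ∀ m ∈ G.support, m l = 0) (t : k)
    (ht : eval (pt u v t 1) G = 0) : (X u - C t * X v : MvPolynomial (Fin 3) k) ∣ G := by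
  rw [← Ideal.mem_span_singleton, ← Ideal.Quotient.eq_zero_iff_mem]
  set I : Ideal (MvPolynomial (Fin 3) k) := Ideal.span {X u - C t * X v} with hI
  have h1 : Ideal.Quotient.mk I G =
      aeval (fun m => Ideal.Quotient.mkₐ k I (X m)) G := by
    have h2 : Ideal.Quotient.mkₐ k I =
        aeval (fun m => Ideal.Quotient.mkₐ k I (X m)) := by
      refine algHom_ext fun m => ?_
      rw [aeval_X]
    have h3 := congrArg (fun φ : MvPolynomial (Fin 3) k →ₐ[k] (MvPolynomial (Fin 3) k ⧸ I) => φ G) h2
    exact h3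
  have h2 : ∀ m, m ≠ l → Ideal.Quotient.mkₐ k I (X m) =
      algebraMap k (MvPolynomial (Fin 3) k ⧸ I) (pt u v t 1 m) * Ideal.Quotient.mkₐ k I (X v) := by
    intro m hm
    have h3 : Ideal.Quotient.mkₐ k I (X u) = algebraMap k (MvPolynomial (Fin 3) k ⧸ I) t *
        Ideal.Quotient.mkₐ k I (X v) := by
      have h4 : Ideal.Quotient.mk I (X u) = Ideal.Quotient.mk I (C t * X v) := by
        rw [Ideal.Quotient.eq, hI]
        exact Ideal.mem_span_singleton_self _
      rw [map_mul] at h4
      exact h4
    rcases hall m with h4 | h4 | h4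
    · subst h4
      unfold pt
      rw [h3, Pi.add_apply, Pi.single_eq_same, Pi.single_eq_of_ne huv, add_zero]
    · subst h4
      unfold pt
      rw [Pi.add_apply, Pi.single_eq_same, Pi.single_eq_of_ne huv.symm, zero_add, map_one, one_mul]
    · exact absurd h4 hm
  rw [h1, aeval_indep hs h2, aeval_hom h, ht, map_zero, zero_mul]

lemma pd_ne [IsAlgClosed k] [CharZero k] {G : MvPolynomial (Fin 3) k} {d : ℕ} (hG : Ird G d)
    (l : Fin 3) : pderiv l G ≠ 0 := by
  intro h0
  have hs := supp_zero h0
  have hdec : ∀ l : Fin 3, ∃ i j : Fin 3, i ≠ j ∧ ∀ m, m = i ∨ m = j ∨ m = l := by decide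
  obtain ⟨i, j, hij, hall⟩ := hdec l
  have key : ∀ u v : Fin 3, u ≠ v → (∀ m, m = u ∨ m = v ∨ m = l) →
      (∃ t : k, eval (pt u v t 1) G = 0) → False := by
    intro u v huv hal ⟨t, ht⟩
    obtain ⟨w, hw⟩ := lin_dvd hG.hom huv hal hs t ht
    have hL : (X u - C t * X v : MvPolynomial (Fin 3) k).IsHomogeneous 1 :=
      (isHomogeneous_X k u).sub (isHomogeneous_C_mul_X t v)
    have hL0 : (X u - C t * X v : MvPolynomial (Fin 3) k) ≠ 0 := by
      intro h1
      have h2 := congrArg (eval (Pi.single u (1 : k))) h1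
      rw [map_sub, map_mul, eval_X, eval_X, eval_C, Pi.single_eq_same,
        Pi.single_eq_of_ne huv.symm, mul_zero, sub_zero, map_zero] at h2
      exact one_ne_zero h2
    have hw0 : w ≠ 0 := by
      rintro rfl
      rw [mul_zero] at hw
      exact hG.irr.ne_zero hw
    have hdeg := totalDegree_mul_of_isDomain hL0 hw0
    rw [← hw, hG.hom.totalDegree hG.irr.ne_zero, hL.totalDegree hL0] at hdeg
    have hunit : ∀ p : MvPolynomial (Fin 3) k, IsUnit p → p.totalDegree = 0 := by
      intro p hp
      rw [MvPolynomial.isUnit_iff_totalDegree_of_isReduced] at hp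
      exact hp.2
    have h2 := hG.two
    rcases hG.irr.isUnit_or_isUnit hw with h3 | h3
    · have h4 := hunit _ h3
      rw [hL.totalDegree hL0] at h4
      omega
    · have h4 := hunit _ h3
      omega
  rcases exists_zero hG.two hG.hom hij with h1 | h1
  · exact key i j hij hall h1
  · refine key j i hij.symm (fun m => ?_) h1
    rcases hall m with h2 | h2 | h2
    · exact Or.inr (Or.inl h2)
    · exact Or.inl h2
    · exact Or.inr (Or.inr h2)

theorem pf_GPN : T_GPN := by
  intro k _ _ _ G d hG
  have hP : Prime G := UniqueFactorizationMonoid.irreducible_iff_prime.1 hG.irr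
  have h1 : Prime (aeval (xb (k := k)) G) := by
    rw [Pool.Agent.H42.SM.aeval_xb]
    exact Pool.Agent.H42.SM.prime_ren Sum.inl_injective hP
  have h2 : Prime (gA G) := by
    unfold gA
    rw [Pool.Agent.H42.SM.aeval_xa]
    exact Pool.Agent.H42.SM.prime_ren Sum.inl_injective hP
  refine ⟨Polynomial.prime_C_iff.2 h1, h1, h2, Polynomial.prime_C_iff.2 h2, fun l => ?_⟩
  have hne : pderiv l G ≠ 0 := pd_ne hG l
  have hdv : ¬ G ∣ pderiv l G := by
    intro h
    have h3 := totalDegree_le_of_dvd_of_isDomain h hne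
    rw [hG.hom.totalDegree hP.ne_zero, (hG.hom.pderiv (i := l)).totalDegree hne] at h3
    have := hG.two
    omega
  have hdb : ¬ aeval (xb (k := k)) G ∣ gr G xb l := by
    intro h
    unfold gr at h
    rw [Pool.Agent.H42.SM.aeval_xb, Pool.Agent.H42.SM.aeval_xb] at h
    exact hdv (Pool.Agent.H42.SM.dvd_ren (τ := Fin 2) h)
  refine ⟨hne, hdv, hdb, fun h => hdb ?_⟩
  have h3 := (Polynomial.C_dvd_iff_dvd_coeff _ _).1 h 0
  rw [Polynomial.coeff_C_zero] at h3
  exact h3

end Pool.Agent.H39.ND
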